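import Pool.Agent.LE.StmtsQG

/-!
# YTU: the part of `Y`
-/

set_option autoImplicit false

open MeasureTheory ProbabilityTheory Function Filter

open scoped ENNReal BigOperators Topology NNReal ComplexOrder Matrix

noncomputable section

namespace Pool.Agent.LE.QF.H45

open Pool.Agent.Anderson hiding box mem_box card_box
open Pool.Agent.Loc Pool.Agent.Mob Pool.Agent.Helper54.Bal
  Pool.Agent.Helper96.EXP Pool.Agent.BED
open Pool.Agent.LE.MN Pool.Agent.LE.CL Pool.Agent.LE.IR Pool.Agent.LE.QD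

variable {X : Type} [Fintype X] [DecidableEq X]

theorem dot_self (u : X → ℂ) : star u ⬝ᵥ u = ((n2 u : ℝ) : ℂ) := by
  unfold n2 dotProduct
  rw [Complex.ofReal_sum]
  apply Finset.sum_congr rfl
  intro i _
  rw [Pi.star_apply, mul_comm]
  have := Complex.mul_conj (u i)
  rw [Complex.normSq_eq_norm_sq] at this
  exact this

theorem n2_nonneg (u : X → ℂ) : 0 ≤ n2 u := by
  unfold n2
  positivity

/-- Cauchy-Schwarz -/
theorem dot_le (u w : X → ℂ) : ‖star u ⬝ᵥ w‖ ≤ Real.sqrt (n2 u) * Real.sqrt (n2 w) := by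
  unfold dotProduct
  refine (norm_sum_le _ _).trans ?_
  have h := Real.sum_mul_le_sqrt_mul_sqrt Finset.univ (fun i => ‖u i‖) (fun i => ‖w i‖)
  refine le_trans (le_of_eq ?_) h
  apply Finset.sum_congr rfl
  intro i _
  rw [norm_mul, Pi.star_apply, norm_star]

theorem tr_basis {P : Matrix X X ℂ} (hP : P.IsHermitian) :
    ∃ (u : X → X → ℂ) (lam : X → ℝ), (∀ i, P *ᵥ u i = (lam i : ℂ) • u i) ∧
      (∀ i, n2 (u i) = 1) ∧ ∀ A : Matrix X X ℂ,
        Matrix.trace A = ∑ i, star (u i) ⬝ᵥ (A *ᵥ u i) := by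
  set U : Matrix X X ℂ := (hP.eigenvectorUnitary : Matrix X X ℂ) with hU
  have hUU : U * star U = 1 := by
    rw [hU]
    exact Unitary.coe_mul_star_self hP.eigenvectorUnitary
  have hUU' : star U * U = 1 := by
    rw [hU]
    exact Unitary.coe_star_mul_self hP.eigenvectorUnitary
  have hent : ∀ (A : Matrix X X ℂ) (i j : X),
      (star U * A * U) i j = star (fun k => U k i) ⬝ᵥ (A *ᵥ fun k => U k j) := by
    intro A i j
    rw [Matrix.mul_assoc, Matrix.mul_apply]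
    unfold dotProduct
    apply Finset.sum_congr rfl
    intro k _
    rw [Matrix.star_apply, Pi.star_apply]
    rfl
  refine ⟨fun i => fun k => U k i, hP.eigenvalues, fun i => ?_, fun i => ?_, fun A => ?_⟩
  · have h := hP.mulVec_eigenvectorBasis i
    have e : (fun k => U k i) = (hP.eigenvectorBasis i).ofLp := by
      funext k
      rw [hU]
      rfl
    change P *ᵥ (fun k => U k i) = ((hP.eigenvalues i : ℝ) : ℂ) • (fun k => U k i)
    rw [e, h]
    funext k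
    simp
  · have h := hent 1 i i
    rw [Matrix.mul_one, hUU', Matrix.one_mulVec, dot_self, Matrix.one_apply_eq] at h
    exact_mod_cast h.symm
  · have h : Matrix.trace A = Matrix.trace (star U * A * U) := by
      rw [Matrix.trace_mul_comm, ← Matrix.mul_assoc, hUU, Matrix.one_mul]
    rw [h, Matrix.trace]
    exact Finset.sum_congr rfl fun i _ => by rw [Matrix.diag_apply, hent]

theorem pow_eig {P : Matrix X X ℂ} {u : X → ℂ} {lam : ℝ} (h : P *ᵥ u = (lam : ℂ) • u) (m : ℕ) :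
    P ^ m *ᵥ u = ((lam ^ m : ℝ) : ℂ) • u := by
  induction m with
  | zero => simp
  | succ m ih =>
    rw [pow_succ, ← Matrix.mulVec_mulVec, h, Matrix.mulVec_smul, ih, smul_smul]
    congr 1
    push_cast
    ring

theorem pow_two_sub {x : ℝ} (hx : 0 ≤ x) {n : ℕ} (hn : 1 ≤ n) :
    x ^ (2 * n - 1) ≤ 2 * (x ^ (2 * n) + (1 / 4) ^ n) ∧
      x ^ (2 * n - 2) ≤ 4 * (x ^ (2 * n) + (1 / 4) ^ n) := by
  obtain ⟨m, rfl⟩ : ∃ m, n = m + 1 := ⟨n - 1, by omega⟩
  have e1 : 2 * (m + 1) - 1 = 2 * m + 1 := by omega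
  have e2 : 2 * (m + 1) - 2 = 2 * m := by omega
  rw [e1, e2]
  have hq : (1 / 4 : ℝ) ^ (m + 1) = (1 / 2) ^ (2 * m) * (1 / 4) := by
    rw [pow_succ, pow_mul]
    norm_num
  rcases le_total (1 / 2) x with h | h
  · have h0 : 0 ≤ x ^ (2 * m) := by positivity
    have e3 : x ^ (2 * (m + 1)) = x ^ (2 * m) * x * x := by ring
    have e4 : x ^ (2 * m + 1) = x ^ (2 * m) * x := by ring
    have h4 : 0 ≤ (1 / 4 : ℝ) ^ (m + 1) := by positivity
    rw [e3, e4]
    have h1 : x ^ (2 * m) * x ≤ x ^ (2 * m) * x * (2 * x) :=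
      le_mul_of_one_le_right (by positivity) (by linarith)
    have h2 : x ^ (2 * m) ≤ x ^ (2 * m) * (2 * x) :=
      le_mul_of_one_le_right h0 (by linarith)
    constructor
    · linarith
    · nlinarith
  · have h0 : x ^ (2 * m) ≤ (1 / 2) ^ (2 * m) := pow_le_pow_left₀ hx h _
    have e4 : x ^ (2 * m + 1) = x ^ (2 * m) * x := by ring
    have h5 : 0 ≤ x ^ (2 * (m + 1)) := by positivity
    have h6 : 0 ≤ (1 / 2 : ℝ) ^ (2 * m) := by positivity
    rw [hq, e4]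
    constructor
    · have : x ^ (2 * m) * x ≤ (1 / 2) ^ (2 * m) * (1 / 2) :=
        mul_le_mul h0 h hx h6
      linarith
    · linarith

theorem ytu (ytj : YtjStmt) (jal : JalStmt) : YtuStmt := by
  intro ι _ _ q X _ _ F v e g τ ε ε₁ ν n hτ hε hε₁ hν hn hF hv he hg hg'
  obtain ⟨g₁, l₁, hJ, hl⟩ := ytj ι q X F v _ g n ν hF hn hν hg hg'
  have hc := (jal ι ℝ q).1 ((ε₁ ^ (2 * n))⁻¹)
  have hm := ((jal ι ℝ q).2.2.1 _ _ _ _ _ _ _ _ hJ hc).2.2
  have hc0 : 0 < (ε₁ ^ (2 * n))⁻¹ := by positivity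
  refine ⟨_, _, by simpa only [div_eq_mul_inv] using hm, ?_⟩
  set P : Matrix X X ℂ := v * vᴴ with hPdef
  have hP : P.IsHermitian := Matrix.isHermitian_mul_conjTranspose_self v
  obtain ⟨u, lam, hu, h1, htr⟩ := tr_basis hP
  -- the eigenvalues
  have hvu : ∀ i, n2 (vᴴ *ᵥ u i) = lam i := by
    intro i
    have h := dot_self (vᴴ *ᵥ u i)
    have h2 : star (vᴴ *ᵥ u i) ⬝ᵥ (vᴴ *ᵥ u i) = star (u i) ⬝ᵥ (P *ᵥ u i) := by
      rw [Matrix.star_mulVec, Matrix.conjTranspose_conjTranspose, ← Matrix.dotProduct_mulVec,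
        Matrix.mulVec_mulVec]
    rw [h2, hu i, dotProduct_smul, dot_self, h1 i] at h
    have h3 : ((lam i : ℝ) : ℂ) = ((n2 (vᴴ *ᵥ u i) : ℝ) : ℂ) := by
      rw [← h]
      simp
    exact_mod_cast h3.symm
  have hlam : ∀ i, 0 ≤ lam i := fun i => by
    rw [← hvu i]
    exact n2_nonneg _
  have htP : ∀ (A : Matrix X X ℂ) (m : ℕ),
      Matrix.trace (A * P ^ m) = ∑ i, ((lam i ^ m : ℝ) : ℂ) * (star (u i) ⬝ᵥ (A *ᵥ u i)) := by
    intro A m
    rw [htr]
    apply Finset.sum_congr rfl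
    intro i _
    rw [← Matrix.mulVec_mulVec, pow_eig (hu i), Matrix.mulVec_smul, dotProduct_smul, smul_eq_mul]
  have htp : ∀ m : ℕ, (Matrix.trace (P ^ m)).re = ∑ i, lam i ^ m := by
    intro m
    have h := htP 1 m
    rw [Matrix.one_mul] at h
    rw [h, Complex.re_sum]
    apply Finset.sum_congr rfl
    intro i _
    rw [Matrix.one_mulVec, dot_self, h1 i, Complex.re_ofReal_mul]
    simp
  -- the drift
  have hd1 : (Matrix.trace (v * P ^ n)).re ≤ ∑ i, lam i ^ n := by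
    rw [htP, Complex.re_sum]
    apply Finset.sum_le_sum
    intro i _
    rw [Complex.re_ofReal_mul]
    have h2 : (star (u i) ⬝ᵥ (v *ᵥ u i)).re ≤ 1 := by
      refine (Complex.re_le_norm _).trans ((dot_le _ _).trans ?_)
      rw [h1 i, Real.sqrt_one, one_mul]
      rw [Real.sqrt_le_one]
      have := hv (u i)
      rw [h1 i] at this
      exact this
    calc lam i ^ n * (star (u i) ⬝ᵥ (v *ᵥ u i)).re ≤ lam i ^ n * 1 :=
          mul_le_mul_of_nonneg_left h2 (pow_nonneg (hlam i) _)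
      _ = _ := mul_one _
  have hd2 : (Matrix.trace (e * vᴴ * P ^ (n - 1))).re ≤
      ∑ i, lam i ^ (n - 1) * (ε * Real.sqrt (lam i)) := by
    rw [htP, Complex.re_sum]
    apply Finset.sum_le_sum
    intro i _
    rw [Complex.re_ofReal_mul]
    refine mul_le_mul_of_nonneg_left ?_ (pow_nonneg (hlam i) _)
    refine (Complex.re_le_norm _).trans ((dot_le _ _).trans ?_)
    rw [h1 i, Real.sqrt_one, one_mul, ← Matrix.mulVec_mulVec]
    have h3 := he (vᴴ *ᵥ u i)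
    rw [hvu i] at h3
    calc Real.sqrt (n2 (e *ᵥ (vᴴ *ᵥ u i))) ≤ Real.sqrt (ε ^ 2 * lam i) := Real.sqrt_le_sqrt h3
      _ = ε * Real.sqrt (lam i) := by
        rw [Real.sqrt_mul (sq_nonneg ε), Real.sqrt_sq hε]
  have hsplit : (Matrix.trace (P ^ (n - 1) * (-(((1 / τ : ℝ) : ℂ) • (v - v * v)) + e) * vᴴ)).re =
      -(1 / τ) * (∑ i, lam i ^ n - (Matrix.trace (v * P ^ n)).re) +
        (Matrix.trace (e * vᴴ * P ^ (n - 1))).re := by
    have e1 : P ^ (n - 1) * (-(((1 / τ : ℝ) : ℂ) • (v - v * v)) + e) * vᴴ =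
        -(((1 / τ : ℝ) : ℂ) • (P ^ (n - 1) * P - P ^ (n - 1) * (v * P))) +
          P ^ (n - 1) * (e * vᴴ) := by
      rw [hPdef]
      simp only [Matrix.mul_add, Matrix.add_mul, Matrix.mul_neg, Matrix.neg_mul,
        Matrix.mul_smul, Matrix.smul_mul, Matrix.mul_sub, Matrix.sub_mul, Matrix.mul_assoc]
    have e2 : P ^ (n - 1) * P = P ^ n := by
      rw [← pow_succ]
      congr 1
      omega
    have e3 : Matrix.trace (P ^ (n - 1) * (v * P)) = Matrix.trace (v * P ^ n) := by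
      rw [Matrix.trace_mul_comm, Matrix.mul_assoc, ← pow_succ']
      congr 3
      omega
    rw [e1, Matrix.trace_add, Matrix.trace_neg, Matrix.trace_smul, Matrix.trace_sub, e2, e3,
      Matrix.trace_mul_comm (P ^ (n - 1)) (e * vᴴ), Complex.add_re, Complex.neg_re, smul_eq_mul,
      Complex.re_ofReal_mul, Complex.sub_re, htp]
    ring
  rw [hsplit, htp] at hl
  have hl2 : l₁ ≤ 2 * n * ∑ i, lam i ^ (n - 1) * (ε * Real.sqrt (lam i)) +
      n * (2 * n - 1) * ν * ∑ i, lam i ^ (n - 1) := by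
    refine hl.trans ?_
    have h3 : 0 ≤ (1 / τ) * (∑ i, lam i ^ n - (Matrix.trace (v * P ^ n)).re) := by
      have : 0 < 1 / τ := by positivity
      exact mul_nonneg this.le (by linarith)
    have h4 : -(1 / τ) * (∑ i, lam i ^ n - (Matrix.trace (v * P ^ n)).re) +
        (Matrix.trace (e * vᴴ * P ^ (n - 1))).re ≤
        ∑ i, lam i ^ (n - 1) * (ε * Real.sqrt (lam i)) := by linarith
    have h5 : (0 : ℝ) ≤ 2 * n := by positivity
    have := mul_le_mul_of_nonneg_left h4 h5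
    linarith
  -- scaling
  have hn1 : (1 : ℝ) ≤ n := by exact_mod_cast hn
  have hscale : ∀ i, ∃ x : ℝ, 0 ≤ x ∧ lam i = (x * ε₁) ^ 2 := by
    intro i
    refine ⟨Real.sqrt (lam i) / ε₁, by positivity, ?_⟩
    rw [div_mul_cancel₀ _ hε₁.ne', Real.sq_sqrt (hlam i)]
  choose x hx0 hx using hscale
  have hsq : ∀ i, Real.sqrt (lam i) = x i * ε₁ := fun i => by
    rw [hx i, Real.sqrt_sq (mul_nonneg (hx0 i) hε₁.le)]
  obtain ⟨m, rfl⟩ : ∃ m, n = m + 1 := ⟨n - 1, by omega⟩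
  have i1 : ∀ i, lam i ^ (m + 1) * (ε₁ ^ (2 * (m + 1)))⁻¹ = x i ^ (2 * (m + 1)) := by
    intro i
    rw [hx i, ← pow_mul, mul_pow, mul_assoc, mul_inv_cancel₀ (by positivity), mul_one]
  have i2 : ∀ i, lam i ^ (m + 1 - 1) * (ε * Real.sqrt (lam i)) * (ε₁ ^ (2 * (m + 1)))⁻¹ =
      ε / ε₁ * x i ^ (2 * (m + 1) - 1) := by
    intro i
    rw [hsq i, hx i]
    have e1 : m + 1 - 1 = m := by omega
    have e2 : 2 * (m + 1) - 1 = 2 * m + 1 := by omega
    rw [e1, e2, ← pow_mul]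
    field_simp
    ring
  have i3 : ∀ i, lam i ^ (m + 1 - 1) * (ε₁ ^ (2 * (m + 1)))⁻¹ =
      1 / ε₁ ^ 2 * x i ^ (2 * (m + 1) - 2) := by
    intro i
    rw [hx i]
    have e1 : m + 1 - 1 = m := by omega
    have e2 : 2 * (m + 1) - 2 = 2 * m := by omega
    rw [e1, e2, ← pow_mul]
    field_simp
    ring
  set S : ℝ := ∑ i, (x i ^ (2 * (m + 1)) + (1 / 4) ^ (m + 1)) with hS
  have hS0 : 0 ≤ S := Finset.sum_nonneg fun i _ => by
    have := hx0 i
    positivity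
  have s1 : (Matrix.trace (P ^ (m + 1))).re / ε₁ ^ (2 * (m + 1)) +
      Fintype.card X * (1 / 4) ^ (m + 1) = S := by
    rw [div_eq_mul_inv, htp, Finset.sum_mul, hS, Finset.sum_add_distrib]
    congr 1
    · exact Finset.sum_congr rfl fun i _ => i1 i
    · rw [Finset.sum_const, Finset.card_univ, nsmul_eq_mul]
  have s2 : (∑ i, lam i ^ (m + 1 - 1) * (ε * Real.sqrt (lam i))) * (ε₁ ^ (2 * (m + 1)))⁻¹ ≤
      ε / ε₁ * (2 * S) := by
    rw [Finset.sum_mul, hS, Finset.mul_sum, Finset.mul_sum]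
    apply Finset.sum_le_sum
    intro i _
    rw [i2 i]
    exact mul_le_mul_of_nonneg_left (pow_two_sub (hx0 i) hn).1 (by positivity)
  have s3 : (∑ i, lam i ^ (m + 1 - 1)) * (ε₁ ^ (2 * (m + 1)))⁻¹ ≤ 1 / ε₁ ^ 2 * (4 * S) := by
    rw [Finset.sum_mul, hS, Finset.mul_sum, Finset.mul_sum]
    apply Finset.sum_le_sum
    intro i _
    rw [i3 i]
    exact mul_le_mul_of_nonneg_left (pow_two_sub (hx0 i) hn).2 (by positivity)
  have hl3 := mul_le_mul_of_nonneg_right hl2 hc0.le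
  set c : ℝ := (ε₁ ^ (2 * (m + 1)))⁻¹
  set T1 : ℝ := ∑ i, lam i ^ (m + 1 - 1) * (ε * Real.sqrt (lam i))
  set T2 : ℝ := ∑ i, lam i ^ (m + 1 - 1)
  rw [s1]
  set k : ℝ := ((m + 1 : ℕ) : ℝ) with hk
  have hk0 : 0 ≤ k := by positivity
  have b1 : 2 * k * (T1 * c) ≤ 2 * k * (ε / ε₁ * (2 * S)) :=
    mul_le_mul_of_nonneg_left s2 (by positivity)
  have b2 : k * (2 * k - 1) * ν * (T2 * c) ≤ k * (2 * k - 1) * ν * (1 / ε₁ ^ 2 * (4 * S)) := by
    refine mul_le_mul_of_nonneg_left s3 ?_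
    have : 0 ≤ 2 * k - 1 := by linarith
    positivity
  have b3 : k * (2 * k - 1) * ν * (1 / ε₁ ^ 2 * (4 * S)) ≤
      8 * k ^ 2 * ν / ε₁ ^ 2 * S := by
    have e1 : 8 * k ^ 2 * ν / ε₁ ^ 2 * S - k * (2 * k - 1) * ν * (1 / ε₁ ^ 2 * (4 * S)) =
        4 * k * ν * (1 / ε₁ ^ 2) * S := by ring
    have : 0 ≤ 4 * k * ν * (1 / ε₁ ^ 2) * S := by positivity
    linarith
  have e0 : ∀ A : ℝ, A * 0 + l₁ * c + ∑ _c : ι, g₁ _c * 0 = l₁ * c := by
    intro A
    simp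
  rw [e0]
  calc l₁ * c ≤ (2 * k * T1 + k * (2 * k - 1) * ν * T2) * c := hl3
    _ = 2 * k * (T1 * c) + k * (2 * k - 1) * ν * (T2 * c) := by ring
    _ ≤ 2 * k * (ε / ε₁ * (2 * S)) + 8 * k ^ 2 * ν / ε₁ ^ 2 * S := by linarith
    _ = (4 * k * ε / ε₁ + 8 * k ^ 2 * ν / ε₁ ^ 2) * S := by ring

end Pool.Agent.LE.QF.H45
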