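import Pool.Agent.LE.StmtsQF

/-!
# LMB: drift and gradient of `Λ(a)`
-/

set_option autoImplicit false

open MeasureTheory ProbabilityTheory Function Filter

open scoped ENNReal BigOperators Topology NNReal ComplexOrder Matrix

noncomputable section

namespace Pool.Agent.LE.QF.H45L

open Pool.Agent.Anderson hiding box mem_box card_box
open Pool.Agent.Loc Pool.Agent.Mob Pool.Agent.Helper54.Bal
  Pool.Agent.Helper96.EXP Pool.Agent.BED
open Pool.Agent.LE.MN Pool.Agent.LE.CL Pool.Agent.LE.IR Pool.Agent.LE.QD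

variable {X : Type} [Fintype X] [DecidableEq X]

/-- Schur's bound -/
theorem schur {K : Matrix X X ℝ} {s : ℝ} (h0 : ∀ a b, 0 ≤ K a b) (hs : ∀ a b, K a b = K b a)
    (hr : ∀ a, ∑ b, K a b ≤ s) (f g : X → ℝ) :
    (f ⬝ᵥ (K *ᵥ g)) ^ 2 ≤ s * (∑ a, f a ^ 2) * (s * (∑ a, g a ^ 2)) := by
  have e : f ⬝ᵥ (K *ᵥ g) =
      ∑ p : X × X, (Real.sqrt (K p.1 p.2) * f p.1) * (Real.sqrt (K p.1 p.2) * g p.2) := by
    rw [Fintype.sum_prod_type]
    unfold dotProduct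
    apply Finset.sum_congr rfl
    intro a _
    rw [Matrix.mulVec, dotProduct, Finset.mul_sum]
    apply Finset.sum_congr rfl
    intro b _
    have := Real.mul_self_sqrt (h0 a b)
    dsimp only
    linear_combination (-(f a * g b)) * this
  have h1 : ∑ p : X × X, (Real.sqrt (K p.1 p.2) * f p.1) ^ 2 ≤ s * ∑ a, f a ^ 2 := by
    rw [Fintype.sum_prod_type, Finset.mul_sum]
    apply Finset.sum_le_sum
    intro a _
    have : ∑ b, (Real.sqrt (K a b) * f a) ^ 2 = (∑ b, K a b) * f a ^ 2 := by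
      rw [Finset.sum_mul]
      apply Finset.sum_congr rfl
      intro b _
      rw [mul_pow, Real.sq_sqrt (h0 a b)]
    rw [this]
    exact mul_le_mul_of_nonneg_right (hr a) (sq_nonneg _)
  have h2 : ∑ p : X × X, (Real.sqrt (K p.1 p.2) * g p.2) ^ 2 ≤ s * ∑ a, g a ^ 2 := by
    rw [Fintype.sum_prod_type, Finset.sum_comm, Finset.mul_sum]
    apply Finset.sum_le_sum
    intro b _
    have : ∑ a, (Real.sqrt (K a b) * g b) ^ 2 = (∑ a, K b a) * g b ^ 2 := by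
      rw [Finset.sum_mul]
      apply Finset.sum_congr rfl
      intro a _
      rw [mul_pow, Real.sq_sqrt (h0 a b), hs a b]
    rw [this]
    exact mul_le_mul_of_nonneg_right (hr b) (sq_nonneg _)
  rw [e]
  refine (Finset.sum_mul_sq_le_sq_mul_sq _ _ _).trans ?_
  refine mul_le_mul h1 h2 (by positivity) ?_
  exact le_trans (by positivity) h1

/-- the form of a matrix with nonnegative entries, split by a projection -/
theorem cube_le {K Pl : Matrix X X ℝ} {s π₀ ε : ℝ} (hs0 : 0 ≤ s) (hπ : 0 ≤ π₀) (hε : 0 ≤ ε)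
    (h0 : ∀ a b, 0 ≤ K a b) (hs : ∀ a b, K a b = K b a)
    (hr : ∀ a, ∑ b, K a b ≤ s) (hPs : ∀ a b, Pl a b = Pl b a) (hPP : Pl * Pl = Pl)
    (hPd : ∀ a, Pl a a ≤ π₀)
    (hf : ∀ f : X → ℝ, Pl *ᵥ f = 0 → qf K f ≤ ε * ∑ b, f b ^ 2) (x : X → ℝ)
    (hx0 : ∀ b, 0 ≤ x b) (hx : ∑ b, x b ≤ s) :
    qf K x ≤ s ^ 3 * π₀ + 2 * s ^ 2 * Real.sqrt (π₀ * ∑ b, x b ^ 2) + ε * ∑ b, x b ^ 2 := by
  have hPt : Plᵀ = Pl := by
    ext a b
    exact hPs b a
  have hKt : Kᵀ = K := by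
    ext a b
    exact hs b a
  -- the entries of the projection
  have hent : ∀ b c, |Pl b c| ≤ π₀ := by
    intro b c
    have h1 : Pl b c = ∑ d, Pl b d * Pl d c := by
      conv_lhs => rw [← hPP]
      rw [Matrix.mul_apply]
    have hd : ∀ b, ∑ d, Pl b d ^ 2 = Pl b b := by
      intro b
      conv_rhs => rw [← hPP]
      rw [Matrix.mul_apply]
      exact Finset.sum_congr rfl fun d _ => by rw [hPs d b]; ring
    have h2 : Pl b c ^ 2 ≤ π₀ ^ 2 := by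
      rw [h1]
      refine (Finset.sum_mul_sq_le_sq_mul_sq _ _ _).trans ?_
      have e2 : ∑ d, Pl d c ^ 2 = Pl c c := by
        rw [← hd c]
        exact Finset.sum_congr rfl fun d _ => by rw [hPs d c]
      rw [hd b, e2, sq]
      exact mul_le_mul (hPd b) (hPd c) (by rw [← hd c]; positivity) hπ
    have := abs_le_of_sq_le_sq' h2 hπ
    exact abs_le.mpr this
  set xl : X → ℝ := Pl *ᵥ x with hxl
  set xh : X → ℝ := x - xl with hxh
  set Λ : ℝ := ∑ b, x b ^ 2 with hΛ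
  have hΛ' : x ⬝ᵥ x = Λ := by
    rw [hΛ]
    unfold dotProduct
    exact Finset.sum_congr rfl fun b _ => (sq (x b)).symm
  have hPh : Pl *ᵥ xh = 0 := by
    rw [hxh, Matrix.mulVec_sub, hxl, Matrix.mulVec_mulVec, hPP, sub_self]
  have hll : xl ⬝ᵥ xl = x ⬝ᵥ xl := by
    have : xl ⬝ᵥ xl = x ⬝ᵥ (Pl *ᵥ xl) := by
      conv_lhs => rw [hxl]
      rw [Matrix.dotProduct_mulVec x Pl xl, ← Matrix.mulVec_transpose, hPt, ← hxl]
    rw [this, hxl, Matrix.mulVec_mulVec, hPP]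
  have hA : xl ⬝ᵥ xl ≤ s ^ 2 * π₀ := by
    rw [hll, hxl]
    have e1 : x ⬝ᵥ (Pl *ᵥ x) = ∑ b, ∑ c, x b * (Pl b c * x c) := by
      unfold dotProduct
      apply Finset.sum_congr rfl
      intro b _
      rw [Matrix.mulVec, dotProduct, Finset.mul_sum]
    have e2 : (∑ b, x b) ^ 2 * π₀ = ∑ b, ∑ c, x b * (π₀ * x c) := by
      rw [sq, Finset.sum_mul_sum, Finset.sum_mul]
      apply Finset.sum_congr rfl
      intro b _
      rw [Finset.sum_mul]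
      exact Finset.sum_congr rfl fun c _ => by ring
    rw [e1]
    have h1 : ∑ b, ∑ c, x b * (Pl b c * x c) ≤ ∑ b, ∑ c, x b * (π₀ * x c) := by
      apply Finset.sum_le_sum
      intro b _
      apply Finset.sum_le_sum
      intro c _
      refine mul_le_mul_of_nonneg_left ?_ (hx0 b)
      exact mul_le_mul_of_nonneg_right ((le_abs_self _).trans (hent b c)) (hx0 c)
    rw [← e2] at h1
    refine h1.trans ?_
    have h2 : 0 ≤ ∑ b, x b := Finset.sum_nonneg fun b _ => hx0 b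
    exact mul_le_mul_of_nonneg_right (pow_le_pow_left₀ h2 hx 2) hπ
  have hsum : ∀ f : X → ℝ, ∑ b, f b ^ 2 = f ⬝ᵥ f := fun f => by
    unfold dotProduct
    exact Finset.sum_congr rfl fun b _ => sq (f b)
  have hA0 : 0 ≤ xl ⬝ᵥ xl := by
    rw [← hsum]
    positivity
  have hB : xh ⬝ᵥ xh ≤ Λ := by
    have : xh ⬝ᵥ xh = x ⬝ᵥ x - 2 * (x ⬝ᵥ xl) + xl ⬝ᵥ xl := by
      rw [hxh, sub_dotProduct, dotProduct_sub, dotProduct_sub, dotProduct_comm xl x]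
      ring
    rw [this, hΛ', ← hll]
    linarith
  have hB0 : 0 ≤ xh ⬝ᵥ xh := by
    rw [← hsum]
    positivity
  have hΛ0 : 0 ≤ Λ := by
    rw [hΛ]
    positivity
  -- expansion
  have hexp : qf K x = xl ⬝ᵥ (K *ᵥ xl) + 2 * (xl ⬝ᵥ (K *ᵥ xh)) + xh ⬝ᵥ (K *ᵥ xh) := by
    have e1 : qf K x = x ⬝ᵥ (K *ᵥ x) := rfl
    have e2 : x = xl + xh := by
      rw [hxh]
      abel
    have e3 : xh ⬝ᵥ (K *ᵥ xl) = xl ⬝ᵥ (K *ᵥ xh) := by
      rw [Matrix.dotProduct_mulVec, ← Matrix.mulVec_transpose, hKt, dotProduct_comm]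
    rw [e1]
    conv_lhs => rw [e2]
    rw [Matrix.mulVec_add, add_dotProduct, dotProduct_add, dotProduct_add, e3]
    ring
  have t1 : xl ⬝ᵥ (K *ᵥ xl) ≤ s ^ 3 * π₀ := by
    have h := schur h0 hs hr xl xl
    rw [hsum, ← sq] at h
    have h2 := (abs_le_of_sq_le_sq' h (by positivity)).2
    refine h2.trans ?_
    calc s * (xl ⬝ᵥ xl) ≤ s * (s ^ 2 * π₀) := mul_le_mul_of_nonneg_left hA hs0
      _ = _ := by ring
  have t2 : xl ⬝ᵥ (K *ᵥ xh) ≤ s ^ 2 * Real.sqrt (π₀ * Λ) := by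
    have h := schur h0 hs hr xl xh
    rw [hsum, hsum] at h
    have h3 : s * (xl ⬝ᵥ xl) * (s * (xh ⬝ᵥ xh)) ≤ (s ^ 2) ^ 2 * (π₀ * Λ) := by
      calc s * (xl ⬝ᵥ xl) * (s * (xh ⬝ᵥ xh)) ≤ s * (s ^ 2 * π₀) * (s * Λ) := by
            gcongr
        _ = _ := by ring
    have h4 := Real.abs_le_sqrt (h.trans h3)
    rw [Real.sqrt_mul (by positivity), Real.sqrt_sq (by positivity)] at h4
    exact (le_abs_self _).trans h4
  have t3 : xh ⬝ᵥ (K *ᵥ xh) ≤ ε * Λ := by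
    have h := hf xh hPh
    rw [hsum] at h
    exact h.trans (mul_le_mul_of_nonneg_left hB hε)
  rw [hexp]
  linarith

/-- Cauchy-Schwarz -/
theorem dot_le (u w : X → ℂ) : ‖star u ⬝ᵥ w‖ ≤ Real.sqrt (n2 u) * Real.sqrt (n2 w) := by
  unfold dotProduct
  refine (norm_sum_le _ _).trans ?_
  have h := Real.sum_mul_le_sqrt_mul_sqrt Finset.univ (fun i => ‖u i‖) (fun i => ‖w i‖)
  refine le_trans (le_of_eq ?_) h
  apply Finset.sum_congr rfl
  intro i _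
  rw [norm_mul, Pi.star_apply, norm_star]

theorem lmb (nrb : NrbStmt) : LmbStmt := by
  intro C₀ hC₀
  obtain ⟨C₁, hC₁, hN⟩ := nrb C₀ hC₀
  have hC3 : 1 ≤ C₀ ^ 3 := one_le_pow₀ hC₀
  have hCC : 1 ≤ C₀ ^ 3 * C₁ := one_le_mul_of_one_le_of_one_le hC3 hC₁
  refine ⟨128 * (C₀ ^ 3 * C₁), by linarith, ?_⟩
  intro X _ _ G μ 𝒩 Pl κ τ δ N π₀ ε₁ ε₃ a hG hπ hε₁ hε₃ hPs hPP hPd hB hf
  obtain ⟨-, m2, m3, -, -, -⟩ := hN X G μ 𝒩 κ τ δ N hG
  obtain ⟨hκ, hκ1, hτ, hκτ, hτκ⟩ := hG.hκ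
  obtain ⟨hδ, hδ2, hN1⟩ := hG.hδ
  have hC₀0 : 0 < C₀ := by linarith
  have hC₁0 : 0 < C₁ := by linarith
  have hτi : 1 / τ ≤ C₀ / κ := by
    rw [div_le_div_iff₀ hτ hκ]
    linarith
  set K : Matrix X X ℝ := KK G with hKdef
  have hKab : ∀ a b, K a b = ‖G a b‖ ^ 2 := fun a b => rfl
  have hK0 : ∀ a b, 0 ≤ K a b := fun a b => sq_nonneg _
  have hKs : ∀ a b, K a b = K b a := fun a b => by rw [hKab, hKab, hG.hs]
  have hKr : ∀ a, ∑ b, K a b ≤ 2 / τ := by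
    intro a
    have h := (abs_le.mp (hG.hk a)).2
    rw [le_div_iff₀ hτ]
    have e : (∑ b, K a b) * τ = τ * ∑ b, ‖G a b‖ ^ 2 := mul_comm _ _
    rw [e]
    linarith
  set Λ : ℝ := ∑ b, K a b ^ 2 with hΛ
  have hΛ0 : 0 ≤ Λ := by
    rw [hΛ]
    positivity
  -- the cube
  have hcube : (K * K * K) a a = qf K (fun b => K a b) := by
    rw [Matrix.mul_assoc, Matrix.mul_apply]
    unfold qf
    apply Finset.sum_congr rfl
    intro b _
    rw [Matrix.mul_apply, Matrix.mulVec, dotProduct]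
    congr 1
    exact Finset.sum_congr rfl fun c _ => by rw [hKs c a]
  have hM := cube_le (K := K) (Pl := Pl) (s := 2 / τ) (π₀ := π₀) (ε := ε₃ / τ) (by positivity) hπ
    (by positivity) hK0 hKs hKr hPs hPP hPd (fun f hPf => by
      rw [div_mul_eq_mul_div, le_div_iff₀ hτ, mul_comm]
      exact hf f hPf) (fun b => K a b) (fun b => hK0 a b) (hKr a)
  rw [← hcube, ← hΛ] at hM
  set M3 : ℝ := (K * K * K) a a with hM3
  have hR : Real.sqrt (π₀ / κ ^ 2 * Λ) = Real.sqrt (π₀ * Λ) / κ := by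
    rw [div_mul_eq_mul_div, Real.sqrt_div (by positivity), Real.sqrt_sq hκ.le]
  set R : ℝ := Real.sqrt (π₀ / κ ^ 2 * Λ) with hRdef
  have hR0 : 0 ≤ R := Real.sqrt_nonneg _
  have hM2 : M3 ≤ 8 * C₀ ^ 3 / κ * (π₀ / κ ^ 2 + R + ε₃ * Λ) := by
    have hsr : Real.sqrt (π₀ * Λ) = R * κ := by
      rw [hR]
      field_simp
    rw [hsr] at hM
    have s1 : 2 / τ ≤ 2 * C₀ / κ := by
      have := mul_le_mul_of_nonneg_left hτi (show (0:ℝ) ≤ 2 by norm_num)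
      calc 2 / τ = 2 * (1 / τ) := by ring
        _ ≤ 2 * (C₀ / κ) := this
        _ = _ := by ring
    have s0 : 0 ≤ 2 / τ := by positivity
    have a1 : (2 / τ) ^ 3 * π₀ ≤ (2 * C₀ / κ) ^ 3 * π₀ :=
      mul_le_mul_of_nonneg_right (pow_le_pow_left₀ s0 s1 3) hπ
    have a2 : 2 * (2 / τ) ^ 2 * (R * κ) ≤ 2 * (2 * C₀ / κ) ^ 2 * (R * κ) := by
      have := pow_le_pow_left₀ s0 s1 2
      have h5 : 0 ≤ R * κ := by positivity
      have := mul_le_mul_of_nonneg_right (mul_le_mul_of_nonneg_left this (show (0:ℝ) ≤ 2 by norm_num)) h5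
      exact this
    have a3 : ε₃ / τ * Λ ≤ C₀ / κ * (ε₃ * Λ) := by
      have h5 : 0 ≤ ε₃ * Λ := by positivity
      calc ε₃ / τ * Λ = 1 / τ * (ε₃ * Λ) := by ring
        _ ≤ _ := mul_le_mul_of_nonneg_right hτi h5
    have b1 : (2 * C₀ / κ) ^ 3 * π₀ = 8 * C₀ ^ 3 / κ * (π₀ / κ ^ 2) := by
      field_simp
      ring
    have b2 : 2 * (2 * C₀ / κ) ^ 2 * (R * κ) = 8 * C₀ ^ 2 / κ * R := by
      field_simp
      ring
    have c2 : 8 * C₀ ^ 2 / κ * R ≤ 8 * C₀ ^ 3 / κ * R := by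
      have : C₀ ^ 2 ≤ C₀ ^ 3 := pow_le_pow_right₀ hC₀ (by norm_num)
      gcongr
    have c3 : C₀ / κ * (ε₃ * Λ) ≤ 8 * C₀ ^ 3 / κ * (ε₃ * Λ) := by
      have h6 : C₀ ≤ C₀ ^ 3 := le_self_pow₀ hC₀ (by norm_num)
      have : C₀ ≤ 8 * C₀ ^ 3 := by linarith
      gcongr
    have e : 8 * C₀ ^ 3 / κ * (π₀ / κ ^ 2 + R + ε₃ * Λ) = 8 * C₀ ^ 3 / κ * (π₀ / κ ^ 2) +
        8 * C₀ ^ 3 / κ * R + 8 * C₀ ^ 3 / κ * (ε₃ * Λ) := by ring
    rw [e]
    linarith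
  -- the product with `E_K`
  have hns : Real.sqrt (Λ * (δ ^ 2 * (N + δ ^ 2 / κ))) =
      Real.sqrt Λ * Real.sqrt (δ ^ 2 * (N + δ ^ 2 / κ)) := Real.sqrt_mul hΛ0 _
  have hGDs : ∀ b, GD G μ b a = GD G μ a b := by
    intro b
    unfold GD
    rw [Matrix.mul_assoc, Matrix.mul_apply, Matrix.mul_apply]
    apply Finset.sum_congr rfl
    intro c _
    rw [Matrix.diagonal_mul, Matrix.diagonal_mul, hG.hs b c, hG.hs c a]
    ring
  have hEK : ∑ b, EK G μ b a ^ 2 ≤ (2 * C₀ ^ 2 * C₁ / κ) ^ 2 * (δ ^ 2 * (N + δ ^ 2 / κ)) := by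
    have g1 : ∀ b, EK G μ b a ^ 2 ≤ 4 * (K a b * ‖GD G μ a b‖ ^ 2) := by
      intro b
      have h := Complex.abs_re_le_norm ((starRingEnd ℂ) (G b a) * GD G μ b a)
      rw [norm_mul, RCLike.norm_conj, hG.hs b a, hGDs] at h
      have h2 : ((starRingEnd ℂ) (G a b) * GD G μ a b).re ^ 2 ≤
          (‖G a b‖ * ‖GD G μ a b‖) ^ 2 := by
        rw [← sq_abs]
        exact pow_le_pow_left₀ (abs_nonneg _) h 2
      have e : EK G μ b a = 2 * ((starRingEnd ℂ) (G a b) * GD G μ a b).re := by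
        unfold EK
        rw [hG.hs b a, hGDs]
      rw [e, hKab, mul_pow]
      calc (2:ℝ) ^ 2 * ((starRingEnd ℂ) (G a b) * GD G μ a b).re ^ 2
          ≤ (2:ℝ) ^ 2 * (‖G a b‖ * ‖GD G μ a b‖) ^ 2 := by gcongr
        _ = _ := by ring
    have hsδ : 0 ≤ C₀ * δ := by positivity
    have g2 := m2 μ (C₀ * δ) hsδ hG.hμ
    have g3 := m3 μ (C₀ * δ) hsδ hG.hμ a
    have g4 : ∀ b, K a b * ‖GD G μ a b‖ ^ 2 ≤
        (if b ∈ 𝒩 a then C₀ ^ 2 * (C₁ * (C₀ * δ) / κ) ^ 2 else 0) +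
          (C₀ * δ) ^ 2 * ‖GD G μ a b‖ ^ 2 := by
      intro b
      rw [hKab]
      split_ifs with hb
      · have h1 : ‖G a b‖ ^ 2 ≤ C₀ ^ 2 := pow_le_pow_left₀ (norm_nonneg _) (hG.hG a b) 2
        have h2 : ‖GD G μ a b‖ ^ 2 ≤ (C₁ * (C₀ * δ) / κ) ^ 2 :=
          pow_le_pow_left₀ (norm_nonneg _) (g2 a b) 2
        have h3 : ‖G a b‖ ^ 2 * ‖GD G μ a b‖ ^ 2 ≤ C₀ ^ 2 * (C₁ * (C₀ * δ) / κ) ^ 2 :=
          mul_le_mul h1 h2 (by positivity) (by positivity)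
        have h4 : 0 ≤ (C₀ * δ) ^ 2 * ‖GD G μ a b‖ ^ 2 := by positivity
        linarith
      · have h1 : ‖G a b‖ ^ 2 ≤ (C₀ * δ) ^ 2 :=
          pow_le_pow_left₀ (norm_nonneg _) ((hG.hn a b).2 hb) 2
        rw [zero_add]
        exact mul_le_mul_of_nonneg_right h1 (by positivity)
    have g5 : ∑ b, K a b * ‖GD G μ a b‖ ^ 2 ≤
        N * (C₀ ^ 2 * (C₁ * (C₀ * δ) / κ) ^ 2) +
          (C₀ * δ) ^ 2 * (C₁ * (C₀ * δ) ^ 2 / κ ^ 3) := by
      refine (Finset.sum_le_sum fun b _ => g4 b).trans ?_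
      rw [Finset.sum_add_distrib, ← Finset.mul_sum, ← Finset.sum_filter, Finset.sum_const,
        nsmul_eq_mul]
      have h5 : ((Finset.univ.filter fun b => b ∈ 𝒩 a).card : ℝ) ≤ N := by
        rw [Finset.filter_univ_mem]
        exact hG.hN a
      gcongr
    calc ∑ b, EK G μ b a ^ 2 ≤ ∑ b, 4 * (K a b * ‖GD G μ a b‖ ^ 2) :=
          Finset.sum_le_sum fun b _ => g1 b
      _ = 4 * ∑ b, K a b * ‖GD G μ a b‖ ^ 2 := by rw [Finset.mul_sum]
      _ ≤ 4 * (N * (C₀ ^ 2 * (C₁ * (C₀ * δ) / κ) ^ 2) +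
          (C₀ * δ) ^ 2 * (C₁ * (C₀ * δ) ^ 2 / κ ^ 3)) := by gcongr
      _ = 4 * C₀ ^ 4 * C₁ ^ 2 / κ ^ 2 * δ ^ 2 * N + 4 * C₀ ^ 4 * δ ^ 4 / κ ^ 3 * C₁ := by
          field_simp
      _ ≤ 4 * C₀ ^ 4 * C₁ ^ 2 / κ ^ 2 * δ ^ 2 * N + 4 * C₀ ^ 4 * δ ^ 4 / κ ^ 3 * C₁ ^ 2 := by
          have : C₁ ≤ C₁ ^ 2 := le_self_pow₀ hC₁ (by norm_num)
          gcongr
      _ = _ := by
          field_simp
          ring
  have hKE : (K * EK G μ) a a ≤
      2 * C₀ ^ 2 * C₁ / κ * Real.sqrt (Λ * (δ ^ 2 * (N + δ ^ 2 / κ))) := by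
    rw [Matrix.mul_apply, hns]
    refine (Real.sum_mul_le_sqrt_mul_sqrt Finset.univ (fun b => K a b)
      (fun b => EK G μ b a)).trans ?_
    have h1 := Real.sqrt_le_sqrt hEK
    rw [Real.sqrt_mul (by positivity), Real.sqrt_sq (by positivity)] at h1
    calc Real.sqrt (∑ b, K a b ^ 2) * Real.sqrt (∑ b, EK G μ b a ^ 2)
        ≤ Real.sqrt Λ * (2 * C₀ ^ 2 * C₁ / κ * Real.sqrt (δ ^ 2 * (N + δ ^ 2 / κ))) :=
          mul_le_mul_of_nonneg_left h1 (Real.sqrt_nonneg _)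
      _ = _ := by ring
  -- the third term
  have hBB : (∑ b, ∑ c, (starRingEnd ℂ) (BB G a b) * BB G a c * BB G c b).re ≤
      ε₁ / τ * Λ := by
    have e1 : (∑ b, ∑ c, (starRingEnd ℂ) (BB G a b) * BB G a c * BB G c b) =
        star (fun b => BB G a b) ⬝ᵥ (BB G *ᵥ fun b => BB G a b) := by
      unfold dotProduct
      apply Finset.sum_congr rfl
      intro b _
      rw [Matrix.mulVec, dotProduct, Finset.mul_sum]
      apply Finset.sum_congr rfl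
      intro c _
      have : BB G c b = BB G b c := by
        unfold BB
        rw [hG.hs c b]
      rw [this, Pi.star_apply]
      simp only [starRingEnd_apply]
      ring
    have e2 : n2 (fun b => BB G a b) = Λ := by
      unfold n2
      rw [hΛ]
      apply Finset.sum_congr rfl
      intro b _
      rw [hKab]
      unfold BB
      rw [norm_pow]
    rw [e1]
    refine (Complex.re_le_norm _).trans ((dot_le _ _).trans ?_)
    have h1 := Real.sqrt_le_sqrt (hB fun b => BB G a b)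
    rw [Real.sqrt_mul (by positivity), Real.sqrt_sq (by positivity), e2] at h1
    rw [e2]
    calc Real.sqrt Λ * Real.sqrt (n2 (BB G *ᵥ fun b => BB G a b))
        ≤ Real.sqrt Λ * (ε₁ / τ * Real.sqrt Λ) :=
          mul_le_mul_of_nonneg_left h1 (Real.sqrt_nonneg _)
      _ = ε₁ / τ * (Real.sqrt Λ * Real.sqrt Λ) := by ring
      _ = _ := by rw [Real.mul_self_sqrt hΛ0]
  have hBB2 : ε₁ / τ * Λ ≤ C₀ / κ * (ε₁ * Λ) := by
    have h5 : 0 ≤ ε₁ * Λ := by positivity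
    calc ε₁ / τ * Λ = 1 / τ * (ε₁ * Λ) := by ring
      _ ≤ _ := mul_le_mul_of_nonneg_right hτi h5
  -- comparison of the constants
  have q1 : 0 ≤ π₀ / κ ^ 2 + R + ε₃ * Λ := by positivity
  have k1 : 8 * C₀ ^ 3 / κ ≤ 8 * (C₀ ^ 3 * C₁) / κ := by
    have : C₀ ^ 3 ≤ C₀ ^ 3 * C₁ := le_mul_of_one_le_right (by positivity) hC₁
    gcongr
  have hM4 : M3 ≤ 8 * (C₀ ^ 3 * C₁) / κ * (π₀ / κ ^ 2 + R + ε₃ * Λ) :=
    hM2.trans (mul_le_mul_of_nonneg_right k1 q1)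
  constructor
  · have k2 : 2 * C₀ ^ 2 * C₁ / κ ≤ 2 * (C₀ ^ 3 * C₁) / κ := by
      have : C₀ ^ 2 * C₁ ≤ C₀ ^ 3 * C₁ :=
        mul_le_mul_of_nonneg_right (pow_le_pow_right₀ hC₀ (by norm_num)) hC₁0.le
      rw [mul_assoc]
      gcongr
    have k3 : C₀ / κ ≤ (C₀ ^ 3 * C₁) / κ := by
      have h6 : C₀ ≤ C₀ ^ 3 := le_self_pow₀ hC₀ (by norm_num)
      have : C₀ ^ 3 ≤ C₀ ^ 3 * C₁ := le_mul_of_one_le_right (by positivity) hC₁
      have := h6.trans this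
      gcongr
    set D : ℝ := C₀ ^ 3 * C₁
    set S : ℝ := Real.sqrt (Λ * (δ ^ 2 * (N + δ ^ 2 / κ))) with hSdef
    have hS0 : 0 ≤ S := Real.sqrt_nonneg _
    have r1 : (K * EK G μ) a a ≤ 2 * D / κ * S :=
      hKE.trans (mul_le_mul_of_nonneg_right k2 hS0)
    have r2 : (∑ b, ∑ c, (starRingEnd ℂ) (BB G a b) * BB G a c * BB G c b).re ≤
        D / κ * (ε₁ * Λ) :=
      (hBB.trans hBB2).trans (mul_le_mul_of_nonneg_right k3 (by positivity))
    unfold lLa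
    rw [← hKdef, ← hM3]
    have hD0 : 0 ≤ D / κ := by positivity
    have w1 : 0 ≤ D / κ * (π₀ / κ ^ 2) := by positivity
    have w2 : 0 ≤ D / κ * R := by positivity
    have w3 : 0 ≤ D / κ * (ε₃ * Λ) := by positivity
    have w4 : 0 ≤ D / κ * (ε₁ * Λ) := by positivity
    have w5 : 0 ≤ D / κ * S := by positivity
    have f1 : 8 * D / κ * (π₀ / κ ^ 2 + R + ε₃ * Λ) = 8 * (D / κ * (π₀ / κ ^ 2)) +
        8 * (D / κ * R) + 8 * (D / κ * (ε₃ * Λ)) := by ring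
    have f2 : 2 * D / κ * S = 2 * (D / κ * S) := by ring
    have f3 : 128 * D / κ * (π₀ / κ ^ 2 + R + (ε₃ + ε₁) * Λ + S) =
        128 * (D / κ * (π₀ / κ ^ 2)) + 128 * (D / κ * R) + 128 * (D / κ * (ε₃ * Λ)) +
          128 * (D / κ * (ε₁ * Λ)) + 128 * (D / κ * S) := by ring
    rw [f1] at hM4
    rw [f2] at r1
    rw [f3]
    linarith
  · -- the gradient
    have hgr : ∀ c, (2 * ∑ b, K a b * dK G c a b) ^ 2 ≤ 16 * Λ * (K a c * ∑ b, K c b * K b a) := by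
      intro c
      have h1 : |∑ b, K a b * dK G c a b| ≤ 2 * ‖G a c‖ * ∑ b, K a b * (‖G a b‖ * ‖G c b‖) := by
        refine (Finset.abs_sum_le_sum_abs _ _).trans ?_
        rw [Finset.mul_sum]
        apply Finset.sum_le_sum
        intro b _
        rw [abs_mul, abs_of_nonneg (hK0 a b)]
        have h2 : |dK G c a b| ≤ 2 * (‖G a b‖ * ‖G a c‖ * ‖G c b‖) := by
          unfold dK
          rw [abs_neg, abs_mul, abs_of_nonneg (show (0:ℝ) ≤ 2 by norm_num)]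
          have := Complex.abs_re_le_norm ((starRingEnd ℂ) (G a b) * G a c * G c b)
          rw [norm_mul, norm_mul, RCLike.norm_conj] at this
          linarith
        calc K a b * |dK G c a b| ≤ K a b * (2 * (‖G a b‖ * ‖G a c‖ * ‖G c b‖)) :=
              mul_le_mul_of_nonneg_left h2 (hK0 a b)
          _ = _ := by ring
      have h3 : (∑ b, K a b * (‖G a b‖ * ‖G c b‖)) ^ 2 ≤ Λ * ∑ b, K c b * K b a := by
        refine (Finset.sum_mul_sq_le_sq_mul_sq _ _ _).trans ?_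
        refine mul_le_mul_of_nonneg_left (le_of_eq ?_) hΛ0
        apply Finset.sum_congr rfl
        intro b _
        rw [mul_pow, ← hKab, ← hKab, hKs a b]
        ring
      have h4 : (∑ b, K a b * dK G c a b) ^ 2 ≤
          (2 * ‖G a c‖ * ∑ b, K a b * (‖G a b‖ * ‖G c b‖)) ^ 2 := by
        rw [← sq_abs]
        exact pow_le_pow_left₀ (abs_nonneg _) h1 2
      calc (2 * ∑ b, K a b * dK G c a b) ^ 2 = 4 * (∑ b, K a b * dK G c a b) ^ 2 := by ring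
        _ ≤ 4 * (2 * ‖G a c‖ * ∑ b, K a b * (‖G a b‖ * ‖G c b‖)) ^ 2 := by linarith
        _ = 16 * ‖G a c‖ ^ 2 * (∑ b, K a b * (‖G a b‖ * ‖G c b‖)) ^ 2 := by ring
        _ ≤ 16 * ‖G a c‖ ^ 2 * (Λ * ∑ b, K c b * K b a) := by gcongr
        _ = _ := by rw [← hKab]; ring
    have hs3 : ∑ c, K a c * ∑ b, K c b * K b a = M3 := by
      rw [hM3, Matrix.mul_assoc, Matrix.mul_apply]
      exact Finset.sum_congr rfl fun c _ => by rw [Matrix.mul_apply]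
    calc ∑ c, (2 * ∑ b, K a b * dK G c a b) ^ 2
        ≤ ∑ c, 16 * Λ * (K a c * ∑ b, K c b * K b a) := Finset.sum_le_sum fun c _ => hgr c
      _ = 16 * Λ * M3 := by rw [← Finset.mul_sum, hs3]
      _ ≤ 16 * Λ * (8 * (C₀ ^ 3 * C₁) / κ * (π₀ / κ ^ 2 + R + ε₃ * Λ)) := by gcongr
      _ = _ := by ring

end Pool.Agent.LE.QF.H45L
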